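import Pool.Agent.W_MP_486437_lc.Defs

set_option autoImplicit false

namespace Pool.Agent.W_MP_486437_lc

open FirstOrder FirstOrder.Language FirstOrder.Language.Structure

section raw

theorem vec0 {M : Type*} (x : Fin 0 → M) : x = ![] := Subsingleton.elim _ _
theorem vec2 {M : Type*} (x : Fin 2 → M) : x = ![x 0, x 1] := by
  funext i; fin_cases i <;> rfl

variable {M : Type*} [LPA.Structure M]

variable (M) in
def z0 : M := (zeroS : M)
variable (M) in
def z1 : M := (oneS : M)
def ad (x y : M) : M := funMap addS ![x, y]
def ml (x y : M) : M := funMap mulS ![x, y]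
def lt' (x y : M) : Prop := RelMap ltS ![x, y]

variable {α : Type*} (w : α → M)

@[simp] theorem realize_v (a : α) : (v a : LPA.Term α).realize w = w a := rfl
@[simp] theorem realize_zeroT : (zeroT : LPA.Term α).realize w = z0 M := by
  unfold zeroT z0
  rw [Term.realize_constants]
@[simp] theorem realize_oneT : (oneT : LPA.Term α).realize w = z1 M := by
  unfold oneT z1
  rw [Term.realize_constants]
@[simp] theorem realize_addT (s t : LPA.Term α) :
    (addT s t).realize w = ad (s.realize w) (t.realize w) := by
  unfold addT ad
  rw [Term.realize_functions_apply₂]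
@[simp] theorem realize_mulT (s t : LPA.Term α) :
    (mulT s t).realize w = ml (s.realize w) (t.realize w) := by
  unfold mulT ml
  rw [Term.realize_functions_apply₂]
@[simp] theorem realize_eqF (s t : LPA.Term α) :
    (eqF s t).Realize w ↔ s.realize w = t.realize w := by
  unfold eqF
  rw [Formula.realize_equal]
@[simp] theorem realize_ltF (s t : LPA.Term α) :
    (ltF s t).Realize w ↔ lt' (s.realize w) (t.realize w) := by
  unfold ltF lt'
  rw [Formula.realize_rel₂]
@[simp] theorem realize_substF {β : Type*} (φ : LPA.Formula α) (f : α → LPA.Term β) (w : β → M) :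
    (substF φ f).Realize w ↔ φ.Realize (fun a => (f a).realize w) := by
  unfold substF Formula.Realize
  rw [BoundedFormula.realize_subst]

theorem realize_univClosure {k : ℕ} (φ : LPA.Formula (Fin k)) :
    M ⊨ univClosure φ ↔ ∀ w : Fin k → M, φ.Realize w := by
  unfold univClosure Sentence.Realize
  rw [Formula.realize_iAlls]
  apply forall_congr'
  intro w
  rw [Formula.realize_relabel]
  rfl

theorem realize_inductionAxiom {k : ℕ} (φ : LPA.Formula (Fin k ⊕ Fin 1)) :
    M ⊨ inductionAxiom φ ↔ ∀ y : Fin k → M,
      φ.Realize (Sum.elim y (fun _ => z0 M)) →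
      (∀ x : M, φ.Realize (Sum.elim y (fun _ => x)) →
        φ.Realize (Sum.elim y (fun _ => ad x (z1 M)))) →
      ∀ x : M, φ.Realize (Sum.elim y (fun _ => x)) := by
  unfold inductionAxiom
  rw [realize_univClosure]
  apply forall_congr'
  intro y
  rw [Formula.realize_imp, Formula.realize_inf, Formula.realize_iAlls, Formula.realize_iAlls]
  have h1 : ∀ (x : Fin 1 → M), (fun _ => x 0) = x := by
    intro x; funext i; rw [Subsingleton.elim i 0]
  have h2 : (substF φ (Sum.elim (fun i => v i) (fun _ => zeroT))).Realize y
      ↔ φ.Realize (Sum.elim y (fun _ => z0 M)) := by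
    rw [realize_substF]
    apply iff_of_eq
    congr 1
    funext a
    rcases a with a | a <;> simp
  have h3 : ∀ x : Fin 1 → M, ((substF φ
        (Sum.elim (fun i => v (Sum.inl i)) (fun i => addT (v (Sum.inr i)) oneT))).Realize
          (fun a => Sum.elim y x a))
      ↔ φ.Realize (Sum.elim y (fun _ => ad (x 0) (z1 M))) := by
    intro x
    rw [realize_substF]
    apply iff_of_eq
    congr 1
    funext a
    rcases a with a | a
    · simp
    · rw [Subsingleton.elim a 0]; simp
  rw [h2]
  constructor
  · intro h ha hb x
    have := h ⟨ha, fun x' => by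
      rw [Formula.realize_imp, h3]
      intro h4
      apply hb
      rw [h1]
      exact h4⟩ (fun _ => x)
    exact this
  · rintro h ⟨ha, hb⟩ x
    have := h ha (fun x' hx' => by
      have h5 := hb (fun _ => x')
      rw [Formula.realize_imp, h3] at h5
      exact h5 hx') (x 0)
    rw [h1] at this
    exact this

end raw

/-- A discretely ordered semiring with induction for definable sets, compatible with the
`LPA`-structure. -/
class Arith (M : Type*) [CommSemiring M] [LinearOrder M] [LPA.Structure M] : Prop extends
    IsStrictOrderedRing M where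
  zero_eq : z0 M = 0
  one_eq : z1 M = 1
  add_eq : ∀ x y : M, ad x y = x + y
  mul_eq : ∀ x y : M, ml x y = x * y
  lt_iff : ∀ x y : M, lt' x y ↔ x < y
  add_one_le : ∀ x y : M, x < y → x + 1 ≤ y
  exists_add : ∀ x y : M, x < y → ∃ z, x + z = y
  nonneg : ∀ x : M, 0 ≤ x
  ind : ∀ S : Set M, (Set.univ : Set M).Definable LPA {w : Fin 1 → M | w 0 ∈ S} →
    0 ∈ S → (∀ x ∈ S, x + 1 ∈ S) → ∀ x, x ∈ S

section build

variable {M : Type*} [LPA.Structure M]

theorem induction_of_PA (h : M ⊨ PA) (S : Set M)
    (hS : (Set.univ : Set M).Definable LPA {w : Fin 1 → M | w 0 ∈ S})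
    (h0 : z0 M ∈ S) (h1 : ∀ x ∈ S, ad x (z1 M) ∈ S) (x : M) : x ∈ S := by
  rw [Set.definable_iff_finitely_definable] at hS
  obtain ⟨A0, _, hA0⟩ := hS
  rw [Set.definable_iff_exists_formula_sum] at hA0
  obtain ⟨φ, hφ⟩ := hA0
  have hmem : ∀ y : M, y ∈ S ↔ φ.Realize (Sum.elim (fun a : A0 => (a : M)) (fun _ => y)) := by
    intro y
    have : (fun _ : Fin 1 => y) ∈ {w : Fin 1 → M | w 0 ∈ S} ↔ y ∈ S := Iff.rfl
    rw [← this, hφ]
    rfl
  let e : A0 ≃ Fin A0.card := A0.equivFin
  let φ' : LPA.Formula (Fin A0.card ⊕ Fin 1) := φ.relabel (Sum.map e id)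
  have hmem' : ∀ y : M, y ∈ S ↔
      φ'.Realize (Sum.elim (fun i => ((e.symm i : A0) : M)) (fun _ => y)) := by
    intro y
    rw [hmem, Formula.realize_relabel]
    apply iff_of_eq
    congr 1
    funext a
    rcases a with a | a <;> simp
  have hax : M ⊨ inductionAxiom φ' :=
    h.realize_of_mem _ (Or.inr ⟨_, φ', rfl⟩)
  rw [realize_inductionAxiom] at hax
  rw [hmem']
  apply hax
  · rw [← hmem']; exact h0
  · intro y hy
    rw [← hmem'] at hy ⊢
    exact h1 y hy

theorem arith_of_PA (h : M ⊨ PA) : ∃ (_ : CommSemiring M) (_ : LinearOrder M), Arith M := by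
  classical
  have hx : ∀ φ ∈ PAminus, M ⊨ φ := fun φ hφ => h.realize_of_mem _ (Or.inl hφ)
  have a1 : ∀ x y z : M, ad (ad x y) z = ad x (ad y z) := by
    intro x y z
    have := hx (univClosure (k := 3)
      (eqF (addT (addT (v 0) (v 1)) (v 2)) (addT (v 0) (addT (v 1) (v 2))))) (by simp [PAminus])
    rw [realize_univClosure] at this
    simpa using this ![x, y, z]
  have a2 : ∀ x y : M, ad x y = ad y x := by
    intro x y
    have := hx (univClosure (k := 2) (eqF (addT (v 0) (v 1)) (addT (v 1) (v 0))))
      (by simp [PAminus])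
    rw [realize_univClosure] at this
    simpa using this ![x, y]
  have a3 : ∀ x y z : M, ml (ml x y) z = ml x (ml y z) := by
    intro x y z
    have := hx (univClosure (k := 3)
      (eqF (mulT (mulT (v 0) (v 1)) (v 2)) (mulT (v 0) (mulT (v 1) (v 2))))) (by simp [PAminus])
    rw [realize_univClosure] at this
    simpa using this ![x, y, z]
  have a4 : ∀ x y : M, ml x y = ml y x := by
    intro x y
    have := hx (univClosure (k := 2) (eqF (mulT (v 0) (v 1)) (mulT (v 1) (v 0))))
      (by simp [PAminus])
    rw [realize_univClosure] at this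
    simpa using this ![x, y]
  have a5 : ∀ x y z : M, ml x (ad y z) = ad (ml x y) (ml x z) := by
    intro x y z
    have := hx (univClosure (k := 3)
      (eqF (mulT (v 0) (addT (v 1) (v 2))) (addT (mulT (v 0) (v 1)) (mulT (v 0) (v 2)))))
      (by simp [PAminus])
    rw [realize_univClosure] at this
    simpa using this ![x, y, z]
  have a6 : ∀ x : M, ad x (z0 M) = x := by
    intro x
    have := hx (univClosure (k := 1) (eqF (addT (v 0) zeroT) (v 0))) (by simp [PAminus])
    rw [realize_univClosure] at this
    simpa using this ![x]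
  have a6' : ∀ x : M, ml x (z0 M) = z0 M := by
    intro x
    have := hx (univClosure (k := 1) (eqF (mulT (v 0) zeroT) zeroT)) (by simp [PAminus])
    rw [realize_univClosure] at this
    simpa using this ![x]
  have a7 : ∀ x : M, ml x (z1 M) = x := by
    intro x
    have := hx (univClosure (k := 1) (eqF (mulT (v 0) oneT) (v 0))) (by simp [PAminus])
    rw [realize_univClosure] at this
    simpa using this ![x]
  have a8 : ∀ x y z : M, lt' x y → lt' y z → lt' x z := by
    intro x y z
    have := hx (univClosure (k := 3)
      ((ltF (v 0) (v 1)).imp ((ltF (v 1) (v 2)).imp (ltF (v 0) (v 2))))) (by simp [PAminus])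
    rw [realize_univClosure] at this
    simpa using this ![x, y, z]
  have a9 : ∀ x : M, ¬ lt' x x := by
    intro x
    have := hx (univClosure (k := 1) (ltF (v 0) (v 0)).not) (by simp [PAminus])
    rw [realize_univClosure] at this
    simpa using this ![x]
  have a10 : ∀ x y : M, (lt' x y ∨ x = y) ∨ lt' y x := by
    intro x y
    have := hx (univClosure (k := 2) (ltF (v 0) (v 1) ⊔ eqF (v 0) (v 1) ⊔ ltF (v 1) (v 0)))
      (by simp [PAminus])
    rw [realize_univClosure] at this
    simpa using this ![x, y]
  have a11 : ∀ x y z : M, lt' x y → lt' (ad x z) (ad y z) := by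
    intro x y z
    have := hx (univClosure (k := 3)
      ((ltF (v 0) (v 1)).imp (ltF (addT (v 0) (v 2)) (addT (v 1) (v 2))))) (by simp [PAminus])
    rw [realize_univClosure] at this
    simpa using this ![x, y, z]
  have a12 : ∀ x y z : M, lt' (z0 M) z → lt' x y → lt' (ml x z) (ml y z) := by
    intro x y z
    have := hx (univClosure (k := 3) ((ltF zeroT (v 2)).imp
      ((ltF (v 0) (v 1)).imp (ltF (mulT (v 0) (v 2)) (mulT (v 1) (v 2)))))) (by simp [PAminus])
    rw [realize_univClosure] at this
    simpa using this ![x, y, z]
  have a13 : ∀ x y : M, lt' x y → ∃ z, ad x z = y := by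
    intro x y hxy
    have := hx (univClosure (k := 2) ((ltF (v 0) (v 1)).imp (Formula.iExs (Fin 1)
      (eqF (addT (v (Sum.inl 0)) (v (Sum.inr 0))) (v (Sum.inl 1)))))) (by simp [PAminus])
    rw [realize_univClosure] at this
    have h2 := this ![x, y]
    rw [Formula.realize_imp, Formula.realize_iExs] at h2
    obtain ⟨z, hz⟩ := h2 (by simpa using hxy)
    exact ⟨z 0, by simpa using hz⟩
  have a14 : lt' (z0 M) (z1 M) := by
    have := hx (univClosure (k := 0) (ltF zeroT oneT)) (by simp [PAminus])
    rw [realize_univClosure] at this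
    simpa using this ![]
  have a14' : ∀ x : M, lt' (z0 M) x → lt' (z1 M) x ∨ z1 M = x := by
    intro x
    have := hx (univClosure (k := 1) ((ltF zeroT (v 0)).imp (ltF oneT (v 0) ⊔ eqF oneT (v 0))))
      (by simp [PAminus])
    rw [realize_univClosure] at this
    simpa using this ![x]
  have a15 : ∀ x : M, lt' (z0 M) x ∨ z0 M = x := by
    intro x
    have := hx (univClosure (k := 1) (ltF zeroT (v 0) ⊔ eqF zeroT (v 0))) (by simp [PAminus])
    rw [realize_univClosure] at this
    simpa using this ![x]
  let iz : Zero M := ⟨z0 M⟩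
  let io : One M := ⟨z1 M⟩
  let ia : Add M := ⟨ad⟩
  let im : Mul M := ⟨ml⟩
  let i1 : CommSemiring M :=
    { iz, io, ia, im with
      add_assoc := a1
      add_comm := a2
      zero_add := fun x => by show ad (z0 M) x = x; rw [a2, a6]
      add_zero := a6
      mul_assoc := a3
      mul_comm := a4
      one_mul := fun x => by show ml (z1 M) x = x; rw [a4, a7]
      mul_one := a7
      zero_mul := fun x => by show ml (z0 M) x = z0 M; rw [a4, a6']
      mul_zero := a6'
      left_distrib := a5
      right_distrib := fun x y z => by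
        show ml (ad x y) z = ad (ml x z) (ml y z)
        rw [a4, a5, a4 z x, a4 z y]
      nsmul := nsmulRec
      npow := npowRec }
  let i2 : LinearOrder M :=
    { le := fun x y => lt' x y ∨ x = y
      lt := lt'
      le_refl := fun x => Or.inr rfl
      le_trans := by
        rintro x y z (h1 | rfl) (h2 | rfl)
        · exact Or.inl (a8 _ _ _ h1 h2)
        · exact Or.inl h1
        · exact Or.inl h2
        · exact Or.inr rfl
      lt_iff_le_not_ge := by
        intro x y
        constructor
        · intro h1
          refine ⟨Or.inl h1, ?_⟩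
          rintro (h2 | rfl)
          · exact a9 _ (a8 _ _ _ h1 h2)
          · exact a9 _ h1
        · rintro ⟨h1 | rfl, h2⟩
          · exact h1
          · exact absurd (Or.inr rfl) h2
      le_antisymm := by
        rintro x y (h1 | rfl) (h2 | h2)
        · exact absurd (a8 _ _ _ h1 h2) (a9 _)
        · exact h2.symm
        · rfl
        · rfl
      le_total := by
        intro x y
        rcases a10 x y with (h1 | h1) | h1
        · exact Or.inl (Or.inl h1)
        · exact Or.inl (Or.inr h1)
        · exact Or.inr (Or.inl h1)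
      toDecidableLE := Classical.decRel _ }
  refine ⟨i1, i2, ?_⟩
  have hle : ∀ x y : M, x ≤ y ↔ lt' x y ∨ x = y := fun _ _ => Iff.rfl
  have hadd : ∀ x y : M, x + y = ad x y := fun _ _ => rfl
  have hmul : ∀ x y : M, x * y = ml x y := fun _ _ => rfl
  have h3 : IsStrictOrderedRing M :=
    { add_le_add_left := by
        intro x y hxy z
        rcases hxy with h1 | rfl
        · exact Or.inl (a11 _ _ _ h1)
        · exact Or.inr rfl
      le_of_add_le_add_left := by
        intro x y z hxy
        by_contra hcon
        have h1 : lt' z y := lt_of_not_ge hcon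
        have h2 := a11 _ _ x h1
        rw [a2 z, a2 y] at h2
        exact absurd (show x + y ≤ x + z from hxy) (not_le_of_gt (show x + z < x + y from h2))
      zero_le_one := Or.inl a14
      exists_pair_ne := ⟨z0 M, z1 M, fun h1 => a9 (z1 M) (by
        have := a14
        rw [h1] at this
        exact this)⟩
      mul_lt_mul_of_pos_left := by
        intro x hx' y z hyz
        show lt' (ml x y) (ml x z)
        rw [a4 x y, a4 x z]
        exact a12 _ _ _ hx' hyz
      mul_lt_mul_of_pos_right := by
        intro x hx' y z hyz
        exact a12 _ _ _ hx' hyz }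
  exact
    { h3 with
      zero_eq := rfl
      one_eq := rfl
      add_eq := fun _ _ => rfl
      mul_eq := fun _ _ => rfl
      lt_iff := fun _ _ => Iff.rfl
      add_one_le := by
        intro x y hxy
        obtain ⟨z, hz⟩ := a13 x y hxy
        have hz' : x + z = y := hz
        have hz0 : lt' (z0 M) z := by
          rcases a15 z with h1 | h1
          · exact h1
          · exfalso
            rw [← h1] at hz
            rw [a6] at hz
            rw [hz] at hxy
            exact a9 _ hxy
        have h1z : (1 : M) ≤ z := a14' z hz0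
        rw [← hz']
        exact add_le_add le_rfl h1z
      exists_add := fun x y hxy => a13 x y hxy
      nonneg := a15
      ind := by
        intro S hS h0 h1 x
        exact induction_of_PA h S hS h0 h1 x }

end build

end Pool.Agent.W_MP_486437_lc
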