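import Pool.Agent.W_MP_486437_lc.Defs

set_option autoImplicit false

namespace Pool.Agent.W_MP_486437_lc

open FirstOrder FirstOrder.Language FirstOrder.Language.Structure

instance : Countable LPA.Symbols := by
  have h1 : Countable (Σ l, LPA.Functions l) := by
    let f : (Σ l, LPA.Functions l) → ℕ := fun x =>
      match x with
      | ⟨_, ArithFunc.zero⟩ => 0
      | ⟨_, ArithFunc.one⟩ => 1
      | ⟨_, ArithFunc.add⟩ => 2
      | ⟨_, ArithFunc.mul⟩ => 3
    apply Function.Injective.countable (f := f)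
    rintro ⟨_, a⟩ ⟨_, b⟩ h
    cases a <;> cases b <;> simp [f] at h ⊢
  have h2 : Countable (Σ l, LPA.Relations l) := by
    let f : (Σ l, LPA.Relations l) → ℕ := fun x =>
      match x with
      | ⟨_, ArithRel.lt⟩ => 0
    apply Function.Injective.countable (f := f)
    rintro ⟨_, a⟩ ⟨_, b⟩ h
    cases a <;> cases b
    rfl
  exact inferInstanceAs (Countable ((Σ l, LPA.Functions l) ⊕ (Σ l, LPA.Relations l)))

/-- Finite conditions: `P` is to be put in `X`, `N` is to be kept out of `X`, and all elements of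
`C m`, `m < s`, which are not yet in `N`, are promised to be in `X`. -/
structure Cond {M : Type*} (C : ℕ → Set M) where
  s : ℕ
  P : Finset M
  N : Finset M
  disj : ∀ y ∈ P, y ∉ N

namespace Cond

variable {M : Type*} {C : ℕ → Set M}

instance : Preorder (Cond C) where
  le p q := p.s ≤ q.s ∧ p.P ⊆ q.P ∧ p.N ⊆ q.N ∧ ∀ y ∈ q.N, y ∉ p.N → ∀ m < p.s, y ∉ C m
  le_refl p := ⟨le_rfl, Finset.Subset.refl _, Finset.Subset.refl _, fun y h h' => absurd h h'⟩
  le_trans := by
    rintro p q r ⟨h1, h2, h3, h4⟩ ⟨k1, k2, k3, k4⟩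
    refine ⟨h1.trans k1, h2.trans k2, h3.trans k3, ?_⟩
    intro y hy hyp m hm
    by_cases hq : y ∈ q.N
    · exact h4 y hq hyp m hm
    · exact k4 y hy hq m (lt_of_lt_of_le hm h1)

theorem le_def (p q : Cond C) : p ≤ q ↔
    p.s ≤ q.s ∧ p.P ⊆ q.P ∧ p.N ⊆ q.N ∧ ∀ y ∈ q.N, y ∉ p.N → ∀ m < p.s, y ∉ C m := Iff.rfl

end Cond

theorem exists_generic {M : Type*} [Countable M] [LPA.Structure M] (C : ℕ → Set M)
    (H : ∀ (s n : ℕ) (D : Set (Fin n → M)), (Set.univ : Set M).Definable LPA D →
      (∃ B ⊆ D, Spread B) → ∀ F : Finset M,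
        ∃ b ∈ D, Function.Injective b ∧ ∀ i, b i ∉ F ∧ ∀ m < s, b i ∉ C m)
    {κ : Type*} [Countable κ] (E : κ → Set M)
    (HE : ∀ (k : κ) (s : ℕ) (F : Finset M), ∃ y ∈ E k, y ∉ F ∧ ∀ m < s, y ∉ C m) :
    ∃ X : Set M, StronglyCPGeneric X ∧ (∀ m, (C m \ X).Finite) ∧ ∀ k, ∃ y ∈ E k, y ∉ X := by
  classical
  let ι := (Σ n, (LPA[[(Set.univ : Set M)]]).Formula (Fin n) × Set (Fin n)) ⊕ (ℕ ⊕ κ)
  have hsub : ∀ p : Cond C, p ≤ p := fun p => le_rfl
  let 𝒟 : ι → Order.Cofinal (Cond C) := fun i =>
    match i with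
    | Sum.inl ⟨n, φ, I⟩ =>
      { carrier := {p | (∃ B ⊆ Set.ofPred φ.Realize, Spread B) →
          ∃ b : Fin n → M, φ.Realize b ∧ ∀ i, (i ∈ I → b i ∈ p.P) ∧ (i ∉ I → b i ∈ p.N)}
        isCofinal := by
          intro p
          by_cases hB : ∃ B ⊆ Set.ofPred (φ.Realize : (Fin n → M) → Prop), Spread B
          · obtain ⟨b, hbD, hbinj, hb⟩ := H p.s n (Set.ofPred φ.Realize) ⟨φ, rfl⟩ hB (p.P ∪ p.N)
            have hbF : ∀ i, b i ∉ p.P ∧ b i ∉ p.N := by
              intro i
              have := (hb i).1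
              rw [Finset.mem_union, not_or] at this
              exact this
            refine ⟨⟨p.s, p.P ∪ (Finset.univ.filter (fun i => i ∈ I)).image b,
              p.N ∪ (Finset.univ.filter (fun i => i ∉ I)).image b, ?_⟩, ?_, ?_⟩
            · intro y hy hy'
              rw [Finset.mem_union] at hy hy'
              rcases hy with hy | hy
              · rcases hy' with hy' | hy'
                · exact p.disj y hy hy'
                · rw [Finset.mem_image] at hy'
                  obtain ⟨i, _, rfl⟩ := hy'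
                  exact (hbF i).1 hy
              · rw [Finset.mem_image] at hy
                obtain ⟨i, hi, rfl⟩ := hy
                rcases hy' with hy' | hy'
                · exact (hbF i).2 hy'
                · rw [Finset.mem_image] at hy'
                  obtain ⟨j, hj, hji⟩ := hy'
                  have := hbinj hji
                  subst this
                  rw [Finset.mem_filter] at hi hj
                  exact hj.2 hi.2
            · intro _
              refine ⟨b, hbD, fun i => ⟨fun hi => ?_, fun hi => ?_⟩⟩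
              · apply Finset.mem_union_right
                exact Finset.mem_image_of_mem _ (by simpa using hi)
              · apply Finset.mem_union_right
                exact Finset.mem_image_of_mem _ (by simpa using hi)
            · refine ⟨le_rfl, Finset.subset_union_left, Finset.subset_union_left, ?_⟩
              intro y hy hy' m hm
              rw [Finset.mem_union] at hy
              rcases hy with hy | hy
              · exact absurd hy hy'
              · rw [Finset.mem_image] at hy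
                obtain ⟨i, _, rfl⟩ := hy
                exact (hb i).2 m hm
          · exact ⟨p, fun h => absurd h hB, le_rfl⟩ }
    | Sum.inr (Sum.inl m) =>
      { carrier := {p | m < p.s}
        isCofinal := by
          intro p
          refine ⟨⟨max p.s (m + 1), p.P, p.N, p.disj⟩, ?_, ?_⟩
          · exact lt_of_lt_of_le (Nat.lt_succ_self m) (le_max_right _ _)
          · exact ⟨le_max_left _ _, Finset.Subset.refl _, Finset.Subset.refl _,
              fun y h h' => absurd h h'⟩ }
    | Sum.inr (Sum.inr k) =>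
      { carrier := {p | ∃ y ∈ E k, y ∈ p.N}
        isCofinal := by
          intro p
          obtain ⟨y, hyE, hyF, hy⟩ := HE k p.s p.P
          refine ⟨⟨p.s, p.P, insert y p.N, ?_⟩, ⟨y, hyE, Finset.mem_insert_self _ _⟩, ?_⟩
          · intro z hz hz'
            rw [Finset.mem_insert] at hz'
            rcases hz' with rfl | hz'
            · exact hyF hz
            · exact p.disj z hz hz'
          · refine ⟨le_rfl, Finset.Subset.refl _, Finset.subset_insert _ _, ?_⟩
            intro z hz hz' m hm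
            rw [Finset.mem_insert] at hz
            rcases hz with rfl | hz
            · exact hy m hm
            · exact absurd hz hz' }
  have hι : Countable ι := inferInstance
  let : Encodable ι := Encodable.ofCountable ι
  let p0 : Cond C := ⟨0, ∅, ∅, fun _ h => absurd h (Finset.notMem_empty _)⟩
  let G := Order.idealOfCofinals p0 𝒟
  have hG : ∀ i, ∃ p, p ∈ 𝒟 i ∧ p ∈ G := fun i => Order.cofinal_meets_idealOfCofinals p0 𝒟 i
  have hdir : ∀ p ∈ G, ∀ q ∈ G, ∃ r ∈ G, p ≤ r ∧ q ≤ r := by
    intro p hp q hq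
    obtain ⟨r, hr, h1, h2⟩ := G.directed p hp q hq
    exact ⟨r, hr, h1, h2⟩
  let X : Set M := {y | ∀ p ∈ G, y ∉ p.N}
  have hP : ∀ p ∈ G, ∀ y ∈ p.P, y ∈ X := by
    intro p hp y hy q hq hyq
    obtain ⟨r, _, h1, h2⟩ := hdir p hp q hq
    exact r.disj y (h1.2.1 hy) (h2.2.2.1 hyq)
  have hN : ∀ p ∈ G, ∀ y ∈ p.N, y ∉ X := by
    intro p hp y hy hyX
    exact hyX p hp hy
  refine ⟨X, ?_, ?_, ?_⟩
  · intro n _ D hD hB I
    obtain ⟨φ, rfl⟩ := hD
    obtain ⟨p, hp, hpG⟩ := hG (Sum.inl ⟨n, φ, I⟩)
    obtain ⟨b, hb, hbI⟩ := hp hB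
    refine ⟨b, hb, fun i => ⟨fun h => ?_, fun h => ?_⟩⟩
    · by_contra hi
      exact hN p hpG _ ((hbI i).2 hi) h
    · exact hP p hpG _ ((hbI i).1 h)
  · intro m
    obtain ⟨p, hp, hpG⟩ := hG (Sum.inr (Sum.inl m))
    apply Set.Finite.subset p.N.finite_toSet
    rintro y ⟨hyC, hyX⟩
    by_contra hyN
    apply hyX
    intro q hq hyq
    obtain ⟨r, _, h1, h2⟩ := hdir p hpG q hq
    exact h1.2.2.2 y (h2.2.2.1 hyq) hyN m hp hyC
  · intro k
    obtain ⟨p, hp, hpG⟩ := hG (Sum.inr (Sum.inr k))
    obtain ⟨y, hyE, hyN⟩ := hp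
    exact ⟨y, hyE, hN p hpG y hyN⟩

end Pool.Agent.W_MP_486437_lc
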