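import Pool.Agent.W_MP_486437_lc.Omega
import Pool.Agent.W_MP_486437_lc.Generic

set_option autoImplicit false

namespace Pool.Agent.W_MP_486437_lc

open FirstOrder FirstOrder.Language FirstOrder.Language.Structure

theorem spread_avoid {M : Type*} {n : ℕ} (B : Set (Fin n → M)) (hB : Spread B) (F : Finset M) :
    ∃ b ∈ B, ∀ i, b i ∉ F := by
  by_contra hcon
  push Not at hcon
  obtain ⟨b0, hb0⟩ := hB.1.nonempty
  obtain ⟨i0, _⟩ := hcon b0 hb0
  have : Nonempty (Fin n) := ⟨i0⟩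
  choose! f hf using hcon
  obtain ⟨hinf, _, hdis⟩ := hB
  apply hinf
  apply Set.Finite.of_finite_image (f := fun b => b (f b))
  · apply F.finite_toSet.subset
    rintro _ ⟨b, hb, rfl⟩
    exact hf b hb
  · intro b hb c hc hbc
    by_contra hne
    exact hdis b hb c hc hne _ _ hbc

variable {M : Type*} [CommSemiring M] [LinearOrder M] [LPA.Structure M] [Arith M]

/-- the promised set -/
def CC (a : ℕ → M) (m : ℕ) : Set M := {y | ∃ i : ℕ, y = code (m : M) (a m) (i : M)}

/-- the cut appearing in the underspill argument -/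
def cut (a : ℕ → M) (s n : ℕ) (D : Set (Fin n → M)) (F : Finset M) : Set M :=
  {c | ∃ b : Fin n → M, b ∈ D ∧ Function.Injective b ∧ (∀ i, b i ∉ F) ∧
    ∀ i : Fin n, ∀ m : Fin s, ∀ x : M, x < c → b i ≠ code ((m : ℕ) : M) (a m) x}

theorem cut_definable (a : ℕ → M) (s n : ℕ) (D : Set (Fin n → M))
    (hD : (Set.univ : Set M).Definable LPA D) (F : Finset M) :
    (Set.univ : Set M).Definable LPA {w : Fin 1 → M | w 0 ∈ cut a s n D F} := by
  let S1 : Set (Fin 1 ⊕ Fin n → M) := (fun g : Fin 1 ⊕ Fin n → M => g ∘ Sum.inr) ⁻¹' D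
  let S2 : Set (Fin 1 ⊕ Fin n → M) := ⋂ i : Fin n × Fin n,
    {g | i.1 ≠ i.2 → g (Sum.inr i.1) ≠ g (Sum.inr i.2)}
  let S3 : Set (Fin 1 ⊕ Fin n → M) := ⋂ i : Fin n × F, {g | g (Sum.inr i.1) ≠ i.2}
  let S4 : Set (Fin 1 ⊕ Fin n → M) := ⋂ i : Fin n × Fin s,
    {g | ∀ x : M, x < g (Sum.inl 0) → g (Sum.inr i.1) ≠ code ((i.2 : ℕ) : M) (a i.2) x}
  have h1 : (Set.univ : Set M).Definable LPA S1 := hD.preimage_comp _
  have h2 : (Set.univ : Set M).Definable LPA S2 := by
    apply Set.definable_iInter_of_finite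
    rintro ⟨i, j⟩
    by_cases hij : i = j
    · have : {g : Fin 1 ⊕ Fin n → M | (i, j).1 ≠ (i, j).2 →
          g (Sum.inr (i, j).1) ≠ g (Sum.inr (i, j).2)} = Set.univ := by
        ext g; simp [hij]
      rw [this]
      exact Set.definable_univ
    · apply definable_of_formula (eqF (v (Sum.inr (Sum.inr i))) (v (Sum.inr (Sum.inr j)))).not
      intro w
      simp [hij]
  have h3 : (Set.univ : Set M).Definable LPA S3 := by
    apply Set.definable_iInter_of_finite
    rintro ⟨i, y⟩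
    apply definable_of_formula (eqF (v (Sum.inr (Sum.inr i))) (v (Sum.inl (y : M)))).not
    intro w
    simp
  have h4 : (Set.univ : Set M).Definable LPA S4 := by
    apply Set.definable_iInter_of_finite
    rintro ⟨i, m⟩
    apply definable_of_formula (Formula.iAlls (Fin 1)
      ((ltF (v (Sum.inr 0)) (v (Sum.inl (Sum.inr (Sum.inl 0))))).imp
        (eqF (v (Sum.inl (Sum.inr (Sum.inr i)))) (codeT (v (Sum.inl (Sum.inl ((m : ℕ) : M))))
          (v (Sum.inl (Sum.inl (a m)))) (v (Sum.inr 0)))).not))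
    intro w
    rw [Formula.realize_iAlls]
    constructor
    · intro h x
      have := h (x 0)
      simpa [Arith.lt_iff, realize_codeT] using this
    · intro h x
      have := h (fun _ => x)
      simpa [Arith.lt_iff, realize_codeT] using this
  have h5 := (((h1.inter h2).inter h3).inter h4).image_comp_sumInl_fin n
  convert h5 using 1
  ext w
  simp only [Set.mem_image, Set.mem_inter_iff]
  constructor
  · rintro ⟨b, hbD, hbi, hbF, hbC⟩
    refine ⟨Sum.elim w b, ⟨⟨⟨?_, ?_⟩, ?_⟩, ?_⟩, ?_⟩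
    · show (Sum.elim w b) ∘ Sum.inr ∈ D
      rw [Sum.elim_comp_inr]
      exact hbD
    · rw [Set.mem_iInter]
      rintro ⟨i, j⟩ hij h
      exact hij (hbi h)
    · rw [Set.mem_iInter]
      rintro ⟨i, y⟩ h
      apply hbF i
      have h' : b i = y := h
      rw [h']
      exact y.2
    · rw [Set.mem_iInter]
      rintro ⟨i, m⟩ x hx
      exact hbC i m x hx
    · exact Sum.elim_comp_inl _ _
  · rintro ⟨g, ⟨⟨⟨hgD, hgi⟩, hgF⟩, hgC⟩, rfl⟩
    rw [Set.mem_iInter] at hgi hgF hgC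
    refine ⟨g ∘ Sum.inr, hgD, ?_, ?_, ?_⟩
    · intro i j hij
      by_contra hne
      exact hgi (i, j) hne hij
    · intro i hi
      exact hgF (i, ⟨_, hi⟩) rfl
    · intro i m x hx
      exact hgC (i, m) x hx

theorem avoid (hns : ∃ x : M, ¬ Std x) (a : ℕ → M) (s n : ℕ) (D : Set (Fin n → M))
    (hD : (Set.univ : Set M).Definable LPA D) (hB : ∃ B ⊆ D, Spread B) (F : Finset M) :
    ∃ b ∈ D, Function.Injective b ∧ ∀ i, b i ∉ F ∧ ∀ m < s, b i ∉ CC a m := by
  classical
  by_contra hcon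
  obtain ⟨B, hBD, hBs⟩ := hB
  have hstd : ∀ k : ℕ, (k : M) ∈ cut a s n D F := by
    intro k
    obtain ⟨b, hb, hbF⟩ := spread_avoid B hBs (F ∪
      ((Finset.range s ×ˢ Finset.range k).image
        (fun p : ℕ × ℕ => code (p.1 : M) (a p.1) (p.2 : M))))
    refine ⟨b, hBD hb, hBs.2.1 b hb, ?_, ?_⟩
    · intro i hi
      exact hbF i (Finset.mem_union_left _ hi)
    · intro i m x hx h
      obtain ⟨j, hj, rfl⟩ := lt_natCast x k hx
      apply hbF i
      apply Finset.mem_union_right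
      rw [Finset.mem_image]
      exact ⟨((m : ℕ), j), by simp [hj], h.symm⟩
  have hnstd : ∀ c ∈ cut a s n D F, Std c := by
    intro c hc
    by_contra hnc
    obtain ⟨b, hbD, hbi, hbF, hbC⟩ := hc
    apply hcon
    refine ⟨b, hbD, hbi, fun i => ⟨hbF i, ?_⟩⟩
    rintro m hm ⟨j, hj⟩
    exact hbC i ⟨m, hm⟩ (j : M) (natCast_lt_of_not_std c hnc j) hj
  have hall := Arith.ind (cut a s n D F) (cut_definable a s n D hD F)
    (by simpa using hstd 0) (by
      intro x hx
      obtain ⟨k, rfl⟩ := hnstd x hx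
      have := hstd (k + 1)
      rwa [Nat.cast_succ] at this)
  obtain ⟨x, hx⟩ := hns
  exact hx (hnstd x (hall x))

/-- The relation which will define a bijection between the standard cut and the model. -/
def RR (X : Set M) (n z : M) : Prop :=
  ∃ i0 : M, theta X i0 ∧ ∀ i : M, theta X i → code n z (i0 + i) ∈ X

/-- Nonstandard case. -/
theorem exists_nonstd [Countable M] (hns : ∃ x : M, ¬ Std x) :
    ∃ X : Set M, StronglyCPGeneric X ∧
      (∀ z : M, ∃ n : M, theta X n ∧ RR X n z) ∧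
      (∀ n : M, theta X n → ∃ z : M, RR X n z) ∧
      (∀ n z z' : M, theta X n → RR X n z → RR X n z' → z = z') := by
  classical
  obtain ⟨a, ha⟩ := exists_surjective_nat M
  let κ := {p : ℕ × M × ℕ // p.2.1 ≠ a p.1}
  let E : κ → Set M := fun p => {y | ∃ i : ℕ, p.1.2.2 ≤ i ∧ y = code (p.1.1 : M) p.1.2.1 (i : M)}
  obtain ⟨X, hX, hC, hE⟩ := exists_generic (CC a) (avoid hns a) E (by
    rintro ⟨⟨m, x, k⟩, hp⟩ s F
    have hinf : {y : M | ∃ i : ℕ, k ≤ i ∧ y = code (m : M) x (i : M)}.Infinite := by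
      have : {y : M | ∃ i : ℕ, k ≤ i ∧ y = code (m : M) x (i : M)}
          = (fun i : ℕ => code (m : M) x (i : M)) '' (Set.Ici k) := by
        ext y
        constructor
        · rintro ⟨i, hi, rfl⟩; exact ⟨i, hi, rfl⟩
        · rintro ⟨i, hi, rfl⟩; exact ⟨i, hi, rfl⟩
      rw [this]
      apply Set.Infinite.image _ (Set.Ici_infinite k)
      intro i _ j _ hij
      exact Nat.cast_injective (R := M) (code_inj _ _ _ _ _ _ hij).2.2
    obtain ⟨y, hyE, hyF⟩ := hinf.exists_notMem_finset F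
    refine ⟨y, hyE, hyF, ?_⟩
    obtain ⟨i, _, rfl⟩ := hyE
    rintro m' _ ⟨j, hj⟩
    obtain ⟨h1, h2, _⟩ := code_inj _ _ _ _ _ _ hj
    have h3 := Nat.cast_injective (R := M) h1
    subst h3
    exact hp h2)
  have hyes : ∀ m : ℕ, RR X (m : M) (a m) := by
    intro m
    have hfin : {i : ℕ | code (m : M) (a m) (i : M) ∉ X}.Finite := by
      apply Set.Finite.of_finite_image (f := fun i : ℕ => code (m : M) (a m) (i : M))
      · apply (hC m).subset
        rintro _ ⟨i, hi, rfl⟩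
        exact ⟨⟨i, rfl⟩, hi⟩
      · intro i _ j _ hij
        exact Nat.cast_injective (R := M) (code_inj _ _ _ _ _ _ hij).2.2
    obtain ⟨K, hK⟩ := hfin.bddAbove
    refine ⟨((K + 1 : ℕ) : M), theta_natCast X hX _, ?_⟩
    intro i hi
    obtain ⟨j, rfl⟩ := std_of_theta X hX i hi
    by_contra hcon
    rw [← Nat.cast_add] at hcon
    have := hK (show K + 1 + j ∈ {i : ℕ | code (m : M) (a m) (i : M) ∉ X} from hcon)
    omega
  have hno : ∀ (m : ℕ) (x : M), RR X (m : M) x → x = a m := by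
    rintro m x ⟨i0, hi0, h⟩
    by_contra hne
    obtain ⟨k, rfl⟩ := std_of_theta X hX i0 hi0
    obtain ⟨y, ⟨i, hi, rfl⟩, hyX⟩ := hE ⟨(m, x, k), hne⟩
    apply hyX
    have h1 := h ((i - k : ℕ) : M) (theta_natCast X hX _)
    rw [← Nat.cast_add, Nat.add_sub_cancel' hi] at h1
    exact h1
  refine ⟨X, hX, ?_, ?_, ?_⟩
  · intro z
    obtain ⟨m, rfl⟩ := ha z
    exact ⟨m, theta_natCast X hX m, hyes m⟩
  · intro n hn
    obtain ⟨m, rfl⟩ := std_of_theta X hX n hn
    exact ⟨a m, hyes m⟩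
  · intro n z z' hn hz hz'
    obtain ⟨m, rfl⟩ := std_of_theta X hX n hn
    rw [hno m z hz, hno m z' hz']

/-- Standard case. -/
theorem exists_std [Countable M] (hs : ∀ x : M, Std x) :
    ∃ X : Set M, StronglyCPGeneric X ∧ (∀ n : M, theta X n) := by
  obtain ⟨X, hX, _, _⟩ := exists_generic (M := M) (fun _ => ∅) (by
    intro s n D _ hB F
    obtain ⟨B, hBD, hBs⟩ := hB
    obtain ⟨b, hb, hbF⟩ := spread_avoid B hBs F
    exact ⟨b, hBD hb, hBs.2.1 b hb, fun i => ⟨hbF i, fun _ _ => Set.notMem_empty _⟩⟩)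
    (κ := Empty) (fun e => e.elim) (fun e => e.elim)
  refine ⟨X, hX, fun n => ?_⟩
  obtain ⟨m, rfl⟩ := hs n
  exact theta_natCast X hX m

end Pool.Agent.W_MP_486437_lc
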