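import Mathlib

/-!
# Definitions for MP_486437_lc

The language of Peano arithmetic, the theory `PA` (Kaye's discretely ordered semiring axioms
together with the full induction schema), expansions of models by one unary predicate, spread sets
and strongly CP-generic sets.
-/

set_option autoImplicit false

namespace Pool.Agent.W_MP_486437_lc

open FirstOrder FirstOrder.Language

/-- The function symbols `0, 1, +, ·`. -/
inductive ArithFunc : ℕ → Type
  | zero : ArithFunc 0
  | one : ArithFunc 0
  | add : ArithFunc 2
  | mul : ArithFunc 2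

/-- The relation symbol `<`. -/
inductive ArithRel : ℕ → Type
  | lt : ArithRel 2

/-- The usual language of Peano arithmetic. -/
def LPA : FirstOrder.Language.{0, 0} := ⟨ArithFunc, ArithRel⟩

/-- the constant symbol `0` -/
def zeroS : LPA.Constants := ArithFunc.zero

/-- the constant symbol `1` -/
def oneS : LPA.Constants := ArithFunc.one

/-- the function symbol `+` -/
def addS : LPA.Functions 2 := ArithFunc.add

/-- the function symbol `·` -/
def mulS : LPA.Functions 2 := ArithFunc.mul

/-- the relation symbol `<` -/
def ltS : LPA.Relations 2 := ArithRel.lt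

section terms

variable {α : Type*}

/-- the term `0` -/
def zeroT : LPA.Term α := Constants.term zeroS

/-- the term `1` -/
def oneT : LPA.Term α := Constants.term oneS

/-- the term `s + t` -/
def addT (s t : LPA.Term α) : LPA.Term α := Functions.apply₂ addS s t

/-- the term `s · t` -/
def mulT (s t : LPA.Term α) : LPA.Term α := Functions.apply₂ mulS s t

/-- the formula `s < t` -/
def ltF (s t : LPA.Term α) : LPA.Formula α := Relations.formula₂ ltS s t

/-- the formula `s = t` -/
def eqF (s t : LPA.Term α) : LPA.Formula α := Term.equal s t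

/-- the variable with index `a`, as a term -/
def v (a : α) : LPA.Term α := Term.var a

/-- substitution of the terms `f a` for the free variables `a` of the formula `φ` -/
def substF {β : Type*} (φ : LPA.Formula α) (f : α → LPA.Term β) : LPA.Formula β :=
  BoundedFormula.subst φ f

end terms

/-- The universal closure of a formula whose free variables are indexed by `Fin k`. -/
noncomputable def univClosure {k : ℕ} (φ : LPA.Formula (Fin k)) : LPA.Sentence :=
  Formula.iAlls (Fin k) (φ.relabel (Sum.inr : Fin k → Empty ⊕ Fin k))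

/-- The axioms of discretely ordered semirings (the theory PA minus of Kaye). -/
noncomputable def PAminus : LPA.Theory :=
  { univClosure (k := 3) (eqF (addT (addT (v 0) (v 1)) (v 2)) (addT (v 0) (addT (v 1) (v 2)))),
    univClosure (k := 2) (eqF (addT (v 0) (v 1)) (addT (v 1) (v 0))),
    univClosure (k := 3) (eqF (mulT (mulT (v 0) (v 1)) (v 2)) (mulT (v 0) (mulT (v 1) (v 2)))),
    univClosure (k := 2) (eqF (mulT (v 0) (v 1)) (mulT (v 1) (v 0))),
    univClosure (k := 3)
      (eqF (mulT (v 0) (addT (v 1) (v 2))) (addT (mulT (v 0) (v 1)) (mulT (v 0) (v 2)))),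
    univClosure (k := 1) (eqF (addT (v 0) zeroT) (v 0)),
    univClosure (k := 1) (eqF (mulT (v 0) zeroT) zeroT),
    univClosure (k := 1) (eqF (mulT (v 0) oneT) (v 0)),
    univClosure (k := 3) ((ltF (v 0) (v 1)).imp ((ltF (v 1) (v 2)).imp (ltF (v 0) (v 2)))),
    univClosure (k := 1) (ltF (v 0) (v 0)).not,
    univClosure (k := 2) (ltF (v 0) (v 1) ⊔ eqF (v 0) (v 1) ⊔ ltF (v 1) (v 0)),
    univClosure (k := 3) ((ltF (v 0) (v 1)).imp (ltF (addT (v 0) (v 2)) (addT (v 1) (v 2)))),
    univClosure (k := 3) ((ltF zeroT (v 2)).imp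
      ((ltF (v 0) (v 1)).imp (ltF (mulT (v 0) (v 2)) (mulT (v 1) (v 2))))),
    univClosure (k := 2) ((ltF (v 0) (v 1)).imp (Formula.iExs (Fin 1)
      (eqF (addT (v (Sum.inl 0)) (v (Sum.inr 0))) (v (Sum.inl 1))))),
    univClosure (k := 0) (ltF zeroT oneT),
    univClosure (k := 1) ((ltF zeroT (v 0)).imp (ltF oneT (v 0) ⊔ eqF oneT (v 0))),
    univClosure (k := 1) (ltF zeroT (v 0) ⊔ eqF zeroT (v 0)) }

/-- The induction axiom for `φ(y, x)`: here `y` is a tuple of `k` parameters (variables `inl i`)
and `x` (the variable `inr 0`) is the induction variable. -/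
noncomputable def inductionAxiom {k : ℕ} (φ : LPA.Formula (Fin k ⊕ Fin 1)) : LPA.Sentence :=
  univClosure
    ((substF φ (Sum.elim (fun i => v i) (fun _ => zeroT)) ⊓
      Formula.iAlls (Fin 1) (φ.imp (substF φ
        (Sum.elim (fun i => v (Sum.inl i)) (fun i => addT (v (Sum.inr i)) oneT))))).imp
      (Formula.iAlls (Fin 1) φ))

/-- Peano arithmetic. -/
def PA : LPA.Theory :=
  PAminus ∪ {ψ | ∃ (k : ℕ) (φ : LPA.Formula (Fin k ⊕ Fin 1)), ψ = inductionAxiom φ}

/-- The single unary relation symbol `U`. -/
inductive PredRel : ℕ → Type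
  | U : PredRel 1

/-- The language with just the unary relation symbol `U`. -/
def LU : FirstOrder.Language.{0, 0} := ⟨fun _ => Empty, PredRel⟩

/-- The language of Peano arithmetic with an additional unary predicate symbol `U`. -/
abbrev LPAU : FirstOrder.Language.{0, 0} := LPA.sum LU

/-- The underlying set of the expansion `(M, X)`. -/
def Expansion {M : Type*} (_X : Set M) : Type _ := M

instance {M : Type*} [h : LPA.Structure M] (X : Set M) : LPA.Structure (Expansion X) := h

/-- The symbol `U` is interpreted by `X`. -/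
instance {M : Type*} (X : Set M) : LU.Structure (Expansion X) where
  funMap := fun f _ => Empty.elim f
  RelMap := fun r x => match r with
    | PredRel.U => (x 0 : M) ∈ X

/-- A set of `n`-tuples is spread if it is infinite, its tuples have pairwise distinct entries,
and distinct tuples in it have disjoint sets of entries. -/
def Spread {M : Type*} {n : ℕ} (B : Set (Fin n → M)) : Prop :=
  B.Infinite ∧ (∀ b ∈ B, Function.Injective b) ∧
    ∀ b ∈ B, ∀ c ∈ B, b ≠ c → ∀ i j, b i ≠ c j

/-- `X` is strongly CP-generic in the `LPA`-structure `M`. -/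
def StronglyCPGeneric {M : Type*} [LPA.Structure M] (X : Set M) : Prop :=
  ∀ (n : ℕ), 1 ≤ n → ∀ D : Set (Fin n → M), (Set.univ : Set M).Definable LPA D →
    (∃ B ⊆ D, Spread B) → ∀ I : Set (Fin n), ∃ b ∈ D, ∀ i, b i ∈ X ↔ i ∈ I

end Pool.Agent.W_MP_486437_lc
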