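import Pool.Agent.W_MP_486437_lc.Transfer

set_option autoImplicit false

namespace Pool.Agent.W_MP_486437_lc

open FirstOrder FirstOrder.Language FirstOrder.Language.Structure

universe u u'

section numerals

variable {M : Type u} {N : Type u'} [LPA.Structure M] [LPA.Structure N] {X : Set M} {Y : Set N}
    (j : Expansion X ↪ₑ[LPAU] Expansion Y)
include j

/-- the underlying map of the elementary embedding -/
def mp : M → N := fun x => j x

theorem j_ad (x y : M) : mp j (ad x y) = ad (mp j x) (mp j y) := by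
  have h1 := j.map_formula (liftF (eqF (v (0 : Fin 3)) (addT (v 1) (v 2))))
    (![ad x y, x, y] : Fin 3 → M)
  have h2 := (realize_liftF X (eqF (v (0 : Fin 3)) (addT (v 1) (v 2)))
    (![ad x y, x, y] : Fin 3 → M)).2 (by simp)
  have h4 : (j ∘ (![ad x y, x, y] : Fin 3 → M) : Fin 3 → Expansion Y)
      = (![mp j (ad x y), mp j x, mp j y] : Fin 3 → N) := by
    funext i; fin_cases i <;> rfl
  have h3 := h1.2 h2
  rw [h4] at h3
  have h5 := (realize_liftF Y (eqF (v (0 : Fin 3)) (addT (v 1) (v 2)))
    (![mp j (ad x y), mp j x, mp j y] : Fin 3 → N)).1 h3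
  simpa using h5

theorem j_z0 : mp j (z0 M) = z0 N := by
  have h1 := j.map_formula (liftF (eqF (v (0 : Fin 1)) zeroT)) (fun _ => (z0 M : M))
  have h2 := (realize_liftF X (eqF (v (0 : Fin 1)) zeroT) (fun _ => (z0 M : M))).2 (by simp)
  have h5 := (realize_liftF Y (eqF (v (0 : Fin 1)) zeroT) (fun _ => mp j (z0 M))).1
    (h1.2 h2)
  rw [realize_eqF] at h5
  simpa using h5

theorem j_z1 : mp j (z1 M) = z1 N := by
  have h1 := j.map_formula (liftF (eqF (v (0 : Fin 1)) oneT)) (fun _ => (z1 M : M))
  have h2 := (realize_liftF X (eqF (v (0 : Fin 1)) oneT) (fun _ => (z1 M : M))).2 (by simp)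
  have h5 := (realize_liftF Y (eqF (v (0 : Fin 1)) oneT) (fun _ => mp j (z1 M))).1
    (h1.2 h2)
  rw [realize_eqF] at h5
  simpa using h5

theorem j_natCast [CommSemiring M] [LinearOrder M] [Arith M] [CommSemiring N] [LinearOrder N]
    [Arith N] (n : ℕ) : mp j (n : M) = (n : N) := by
  induction n with
  | zero =>
    have := j_z0 j
    rw [Arith.zero_eq, Arith.zero_eq] at this
    simpa using this
  | succ n ih =>
    have h1 := j_ad j (n : M) (z1 M)
    rw [j_z1, ih, Arith.add_eq, Arith.add_eq, Arith.one_eq, Arith.one_eq] at h1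
    rw [Nat.cast_succ, Nat.cast_succ]
    exact h1

end numerals

/-- Every countable model of `PA` carries a strongly CP-generic set without any proper strongly
CP-generic elementary extension. -/
theorem main (M : Type u) [LPA.Structure M] [Countable M] (h : M ⊨ PA) :
    ∃ X : Set M, StronglyCPGeneric X ∧ ∀ (N : Type u') [LPA.Structure N] (Y : Set N),
      StronglyCPGeneric Y → ∀ j : Expansion X ↪ₑ[LPAU] Expansion Y, Function.Surjective j := by
  obtain ⟨_, _, _⟩ := arith_of_PA h
  by_cases hs : ∀ x : M, Std x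
  · obtain ⟨X, hX, hth⟩ := exists_std hs
    refine ⟨X, hX, ?_⟩
    intro N _ Y hY j z
    obtain ⟨_, _, _⟩ := arith_of_PA (models_of_ext j h)
    have h1 := forall_ext j (thetaF (v (0 : Fin 1))) (fun w =>
      (realize_thetaF X (v (0 : Fin 1)) w).2 (hth _)) (fun _ => z)
    have h2 := (realize_thetaF Y (v (0 : Fin 1)) (fun _ => z)).1 h1
    obtain ⟨n, hn⟩ := std_of_theta Y hY _ h2
    exact ⟨(n : M), (j_natCast j n).trans hn.symm⟩
  · push Not at hs
    obtain ⟨X, hX, hA, hB, hC⟩ := exists_nonstd hs
    refine ⟨X, hX, ?_⟩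
    intro N _ Y hY j z
    obtain ⟨_, _, _⟩ := arith_of_PA (models_of_ext j h)
    -- every element of `N` is coded by an element of the cut
    have h1 := forall_ext j (Formula.iExs (Fin 1) (thetaF (v (Sum.inr 0)) ⊓
      RRF (v (Sum.inr 0)) (v (Sum.inl (0 : Fin 1))))) (by
        intro w
        rw [Formula.realize_iExs]
        obtain ⟨n, hn1, hn2⟩ := hA (w 0)
        refine ⟨fun _ => n, ?_⟩
        rw [Formula.realize_inf]
        exact ⟨(realize_thetaF X _ (Sum.elim w (fun _ => n))).2 hn1,
          (realize_RRF X _ _ (Sum.elim w (fun _ => n))).2 hn2⟩) (fun _ => z)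
    rw [Formula.realize_iExs] at h1
    obtain ⟨n, hn⟩ := h1
    rw [Formula.realize_inf] at hn
    have hn1 : theta Y (n 0 : N) := (realize_thetaF Y _ (Sum.elim (fun _ => z) n)).1 hn.1
    have hn2 : RR Y (n 0 : N) (z : N) := (realize_RRF Y _ _ (Sum.elim (fun _ => z) n)).1 hn.2
    obtain ⟨k, hk⟩ := std_of_theta Y hY _ hn1
    rw [hk] at hn1 hn2
    obtain ⟨z', hz'⟩ := hB (k : M) (theta_natCast X hX k)
    refine ⟨(z' : M), ?_⟩
    have h3 : RR Y (k : N) (mp j z') := by
      rw [← j_natCast j k]
      exact (RR_ext j _ _).2 hz'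
    -- uniqueness
    have h4 := forall_ext j ((thetaF (v (0 : Fin 3)) ⊓ (RRF (v 0) (v 1) ⊓ RRF (v 0) (v 2))).imp
      (liftF (eqF (v 1) (v 2)))) (by
        intro w
        rw [Formula.realize_imp, Formula.realize_inf, Formula.realize_inf]
        rintro ⟨e1, e2, e3⟩
        have e1' := (realize_thetaF X _ w).1 e1
        have e2' := (realize_RRF X _ _ w).1 e2
        have e3' := (realize_RRF X _ _ w).1 e3
        refine (realize_liftF X _ w).2 ?_
        refine (realize_eqF (M := M) w _ _).2 ?_
        exact hC _ _ _ e1' e2' e3')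
    have h4' : ∀ w : Fin 3 → N, theta Y (w 0) → RR Y (w 0) (w 1) → RR Y (w 0) (w 2) →
        w 1 = w 2 := by
      intro w e1 e2 e3
      have h5 := h4 w
      have h6 := Formula.realize_imp.1 h5 (Formula.realize_inf.2
        ⟨(realize_thetaF Y _ w).2 e1, Formula.realize_inf.2 ⟨(realize_RRF Y _ _ w).2 e2,
        (realize_RRF Y _ _ w).2 e3⟩⟩)
      exact (realize_eqF (M := N) w _ _).1 ((realize_liftF Y _ w).1 h6)
    exact h4' (![(k : N), mp j z', (z : N)] : Fin 3 → N) hn1 h3 hn2

/-- The standard model. -/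
@[instance_reducible]
def natStructure : LPA.Structure ℕ where
  funMap := fun f x => match f with
    | ArithFunc.zero => 0
    | ArithFunc.one => 1
    | ArithFunc.add => x 0 + x 1
    | ArithFunc.mul => x 0 * x 1
  RelMap := fun r x => match r with
    | ArithRel.lt => x 0 < x 1

theorem nat_models_PA : @Theory.Model LPA ℕ natStructure PA := by
  let _ : LPA.Structure ℕ := natStructure
  have e0 : z0 ℕ = 0 := rfl
  have e1 : z1 ℕ = 1 := rfl
  have ea : ∀ x y : ℕ, ad x y = x + y := fun _ _ => rfl
  have em : ∀ x y : ℕ, ml x y = x * y := fun _ _ => rfl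
  have el : ∀ x y : ℕ, lt' x y ↔ x < y := fun _ _ => Iff.rfl
  show ℕ ⊨ PA
  rw [Theory.model_iff]
  intro ψ hψ
  rcases hψ with hψ | ⟨k, φ, rfl⟩
  · simp only [PAminus, Set.mem_insert_iff, Set.mem_singleton_iff] at hψ
    rcases hψ with rfl | rfl | rfl | rfl | rfl | rfl | rfl | rfl | rfl | rfl | rfl | rfl | rfl |
      rfl | rfl | rfl | rfl <;> rw [realize_univClosure] <;> intro w
    · simp [ea]; ring
    · simp [ea]; ring
    · simp [em]; ring
    · simp [em]; ring
    · simp [ea, em]; ring
    · simp [ea, e0]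
    · simp [em, e0]
    · simp [em, e1]
    · simp [el]; omega
    · simp [el]
    · simp [el]; omega
    · simp [el, ea]
    · simp only [Formula.realize_imp, realize_ltF, realize_mulT, realize_v, realize_zeroT, el, em,
        e0]
      intro h1 h2
      exact Nat.mul_lt_mul_of_pos_right h2 h1
    · simp only [Formula.realize_imp, realize_ltF, realize_v, el]
      intro h1
      rw [Formula.realize_iExs]
      refine ⟨fun _ => w 1 - w 0, ?_⟩
      simp [ea]
      omega
    · simp [el, e0, e1]
    · simp [el, e0, e1]; omega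
    · simp [el, e0]; omega
  · rw [realize_inductionAxiom]
    intro y h0 h1 x
    induction x with
    | zero => exact h0
    | succ x ih => exact h1 x ih

end Pool.Agent.W_MP_486437_lc
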