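import Pool.Agent.W_MP_486437_lc.Algebra

set_option autoImplicit false

namespace Pool.Agent.W_MP_486437_lc

open FirstOrder FirstOrder.Language FirstOrder.Language.Structure

section defn

variable {M : Type*} [LPA.Structure M] {α : Type*}

/-- Definability via a formula with parameters from `M` plugged in as variables. -/
theorem definable_of_formula (φ : LPA.Formula (M ⊕ α)) (D : Set (α → M))
    (h : ∀ w, w ∈ D ↔ φ.Realize (Sum.elim id w)) : (Set.univ : Set M).Definable LPA D := by
  rw [Set.definable_iff_exists_formula_sum]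
  refine ⟨φ.relabel (Sum.map (fun a => ⟨a, trivial⟩) id), ?_⟩
  ext w
  rw [h, Set.mem_ofPred_eq, Formula.realize_relabel]
  apply iff_of_eq
  congr 1
  funext a
  rcases a with a | a <;> rfl

end defn

variable {M : Type*} [CommSemiring M] [LinearOrder M] [LPA.Structure M] [Arith M]

/-- standard elements -/
def Std (x : M) : Prop := ∃ n : ℕ, x = (n : M)

omit [LPA.Structure M] [Arith M] in
theorem std_natCast (n : ℕ) : Std (n : M) := ⟨n, rfl⟩

theorem lt_add_one_iff' (x y : M) : x < y + 1 ↔ x ≤ y := by
  constructor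
  · intro h
    by_contra hcon
    exact absurd h (not_lt_of_ge (Arith.add_one_le y x (not_le.1 hcon)))
  · intro h
    exact lt_of_le_of_lt h (lt_add_one y)

theorem lt_natCast (x : M) (n : ℕ) (h : x < n) : ∃ m < n, x = (m : M) := by
  induction n with
  | zero =>
    rw [Nat.cast_zero] at h
    exact absurd h (not_lt_of_ge (Arith.nonneg x))
  | succ n ih =>
    rw [Nat.cast_succ, lt_add_one_iff'] at h
    rcases h.lt_or_eq with h | h
    · obtain ⟨m, hm, hx⟩ := ih h
      exact ⟨m, Nat.lt_succ_of_lt hm, hx⟩
    · exact ⟨n, Nat.lt_succ_self n, h⟩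

theorem natCast_lt_of_not_std (x : M) (hx : ¬ Std x) (n : ℕ) : (n : M) < x := by
  by_contra hcon
  have h1 : x < ((n + 1 : ℕ) : M) := by
    rw [Nat.cast_succ, lt_add_one_iff']
    exact not_lt.1 hcon
  obtain ⟨m, _, hm⟩ := lt_natCast x (n + 1) h1
  exact hx ⟨m, hm⟩

/-- the predicate defining the standard cut -/
def theta (X : Set M) (k : M) : Prop := ∃ y : M, ∀ j : M, j < k → y + j ∉ X

omit [CommSemiring M] [LinearOrder M] [LPA.Structure M] [Arith M] in
theorem spread_fin_one (B : Set (Fin 1 → M)) (h : B.Infinite) : Spread B := by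
  refine ⟨h, fun b _ => Function.injective_of_subsingleton b, ?_⟩
  intro b _ c _ hbc i j hij
  apply hbc
  funext k
  rw [Subsingleton.elim k i, hij, Subsingleton.elim i j]

theorem std_of_theta (X : Set M) (hX : StronglyCPGeneric X) (k : M) (hk : theta X k) : Std k := by
  by_contra hns
  obtain ⟨y, hy⟩ := hk
  let D : Set (Fin 1 → M) := {w | ∃ j : M, j < k ∧ w 0 = y + j}
  have hD : (Set.univ : Set M).Definable LPA D := by
    apply definable_of_formula (Formula.iExs (Fin 1)
      (ltF (v (Sum.inr 0)) (v (Sum.inl (Sum.inl k))) ⊓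
        eqF (v (Sum.inl (Sum.inr 0))) (addT (v (Sum.inl (Sum.inl y))) (v (Sum.inr 0)))))
    intro w
    rw [Formula.realize_iExs]
    constructor
    · rintro ⟨j, hj, hw⟩
      refine ⟨fun _ => j, ?_⟩
      simp [Arith.lt_iff, Arith.add_eq, hj, hw]
    · rintro ⟨j, hj⟩
      refine ⟨j 0, ?_⟩
      simpa [Arith.lt_iff, Arith.add_eq] using hj
  have hB : ∃ B ⊆ D, Spread B := by
    refine ⟨Set.range (fun n : ℕ => (fun _ : Fin 1 => y + (n : M))), ?_, ?_⟩
    · rintro _ ⟨n, rfl⟩
      exact ⟨n, natCast_lt_of_not_std k hns n, rfl⟩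
    · apply spread_fin_one
      apply Set.infinite_range_of_injective
      intro n m hnm
      have := congrFun hnm 0
      simp only at this
      exact Nat.cast_injective (R := M) (add_left_cancel this)
  obtain ⟨b, ⟨j, hj, hb⟩, hbX⟩ := hX 1 le_rfl D hD hB Set.univ
  apply hy j hj
  rw [← hb]
  exact (hbX 0).2 trivial

theorem theta_natCast (X : Set M) (hX : StronglyCPGeneric X) (k : ℕ) : theta X (k : M) := by
  rcases k with _ | k
  · refine ⟨0, fun j hj => ?_⟩
    rw [Nat.cast_zero] at hj
    exact absurd hj (not_lt_of_ge (Arith.nonneg j))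
  let D : Set (Fin (k + 1) → M) := ⋂ i : Fin (k + 1), {w | w i = w 0 + ((i : ℕ) : M)}
  have hD : (Set.univ : Set M).Definable LPA D := by
    apply Set.definable_iInter_of_finite
    intro i
    apply definable_of_formula
      (eqF (v (Sum.inr i)) (addT (v (Sum.inr 0)) (v (Sum.inl ((i : ℕ) : M)))))
    intro w
    simp [Arith.add_eq]
  have hB : ∃ B ⊆ D, Spread B := by
    refine ⟨Set.range (fun n : ℕ => (fun i : Fin (k + 1) => (((k + 1) * n + i : ℕ) : M))),
      ?_, ?_, ?_, ?_⟩
    · rintro _ ⟨n, rfl⟩
      rw [Set.mem_iInter]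
      intro i
      simp
    · apply Set.infinite_range_of_injective
      intro n m hnm
      have := congrFun hnm 0
      simp only at this
      have h1 := Nat.cast_injective (R := M) this
      simp at h1
      exact h1
    · rintro _ ⟨n, rfl⟩ i j hij
      have h1 := Nat.cast_injective (R := M) hij
      apply Fin.ext
      omega
    · rintro _ ⟨n, rfl⟩ _ ⟨m, rfl⟩ hne i j hij
      have h1 := Nat.cast_injective (R := M) hij
      apply hne
      have hi := i.2
      have hj := j.2
      have h2 : n = m := by
        rcases lt_trichotomy n m with h | h | h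
        · have : (k + 1) * (n + 1) ≤ (k + 1) * m := Nat.mul_le_mul_left _ h
          rw [mul_add] at this
          omega
        · exact h
        · have : (k + 1) * (m + 1) ≤ (k + 1) * n := Nat.mul_le_mul_left _ h
          rw [mul_add] at this
          omega
      rw [h2]
  obtain ⟨b, hb, hbX⟩ := hX (k + 1) (by omega) D hD hB ∅
  refine ⟨b 0, fun j hj => ?_⟩
  obtain ⟨m, hm, rfl⟩ := lt_natCast j (k + 1) hj
  rw [Set.mem_iInter] at hb
  have h1 := hb ⟨m, hm⟩
  simp only [Set.mem_ofPred_eq] at h1
  rw [← h1, hbX]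
  exact Set.notMem_empty _

/-- pairing -/
def pr (a b : M) : M := (a + b) * (a + b) + a

theorem pr_inj (a b c d : M) (h : pr a b = pr c d) : a = c ∧ b = d := by
  unfold pr at h
  have key : ∀ a b c d : M, (a + b) * (a + b) + a = (c + d) * (c + d) + c → ¬ a + b < c + d := by
    intro a b c d h hlt
    have h1 := Arith.add_one_le _ _ hlt
    have ha := Arith.nonneg a
    have hb := Arith.nonneg b
    have hc := Arith.nonneg c
    have h2 : (a + b + 1) * (a + b + 1) ≤ (c + d) * (c + d) := by
      apply mul_le_mul h1 h1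
      · exact Arith.nonneg _
      · exact Arith.nonneg _
    have h3 : (a + b + 1) * (a + b + 1) = (a + b) * (a + b) + a + (a + b + b + 1) := by ring
    rw [h3] at h2
    have h4 : (a + b) * (a + b) + a + (a + b + b + 1) ≤ (a + b) * (a + b) + a := by
      rw [h]
      rw [h] at h2
      exact h2.trans (le_add_of_nonneg_right hc)
    have h5 : a + b + b + 1 ≤ 0 := by
      have : (a + b) * (a + b) + a + (a + b + b + 1) ≤ (a + b) * (a + b) + a + 0 := by
        rw [add_zero]; exact h4
      exact le_of_add_le_add_left this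
    have h6 : (0 : M) < a + b + b + 1 := by
      rw [lt_add_one_iff']
      exact Arith.nonneg _
    exact absurd h5 (not_le_of_gt h6)
  have h1 : a + b = c + d := by
    rcases lt_trichotomy (a + b) (c + d) with h2 | h2 | h2
    · exact absurd h2 (key _ _ _ _ h)
    · exact h2
    · exact absurd h2 (key _ _ _ _ h.symm)
  rw [h1] at h
  have h2 := add_left_cancel h
  refine ⟨h2, ?_⟩
  rw [h2] at h1
  exact add_left_cancel h1

/-- triple coding -/
def code (a b c : M) : M := pr a (pr b c)

theorem code_inj (a b c a' b' c' : M) (h : code a b c = code a' b' c') :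
    a = a' ∧ b = b' ∧ c = c' := by
  unfold code at h
  obtain ⟨h1, h2⟩ := pr_inj _ _ _ _ h
  exact ⟨h1, pr_inj _ _ _ _ h2⟩

/-- the term for the pairing -/
def prT {α : Type*} (s t : LPA.Term α) : LPA.Term α := addT (mulT (addT s t) (addT s t)) s

/-- the term for the coding -/
def codeT {α : Type*} (s t u : LPA.Term α) : LPA.Term α := prT s (prT t u)

theorem realize_codeT {α : Type*} (w : α → M) (s t u : LPA.Term α) :
    (codeT s t u).realize w = code (s.realize w) (t.realize w) (u.realize w) := by
  simp [codeT, prT, code, pr, Arith.add_eq, Arith.mul_eq]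

end Pool.Agent.W_MP_486437_lc
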