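import Pool.Agent.W_MP_486437_lc.Construct

set_option autoImplicit false

namespace Pool.Agent.W_MP_486437_lc

open FirstOrder FirstOrder.Language FirstOrder.Language.Structure

section formulas

variable {α : Type*}

/-- an arithmetic formula seen in the expanded language -/
def liftF (φ : LPA.Formula α) : LPAU.Formula α :=
  (LHom.sumInl : LPA →ᴸ LPAU).onFormula φ

/-- the symbol `U` of the expanded language -/
def US : LPAU.Relations 1 := Sum.inr PredRel.U

/-- the formula `U(t)` -/
def UF (t : LPA.Term α) : LPAU.Formula α :=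
  Relations.formula₁ US ((LHom.sumInl : LPA →ᴸ LPAU).onTerm t)

/-- the formula defining the standard cut -/
noncomputable def thetaF (t : LPA.Term α) : LPAU.Formula α :=
  Formula.iExs (Fin 1) (Formula.iAlls (Fin 1)
    ((liftF (ltF (v (Sum.inr 0)) (t.relabel (fun a => Sum.inl (Sum.inl a))))).imp
      (UF (addT (v (Sum.inl (Sum.inr 0))) (v (Sum.inr 0)))).not))

/-- the formula `RR` -/
noncomputable def RRF (s t : LPA.Term α) : LPAU.Formula α :=
  Formula.iExs (Fin 1) (thetaF (v (Sum.inr 0)) ⊓
    Formula.iAlls (Fin 1) ((thetaF (v (Sum.inr 0))).imp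
      (UF (codeT (s.relabel (fun a => Sum.inl (Sum.inl a)))
        (t.relabel (fun a => Sum.inl (Sum.inl a)))
        (addT (v (Sum.inl (Sum.inr 0))) (v (Sum.inr 0)))))))

end formulas

section realize

variable {α : Type*} {M : Type*} [LPA.Structure M] (X : Set M)

/-- an assignment in `M` seen in the expansion -/
abbrev toE (w : α → M) : α → Expansion X := w

theorem realize_liftF (φ : LPA.Formula α) (w : α → M) :
    (liftF φ).Realize (toE X w) ↔ φ.Realize w := by
  unfold liftF
  rw [LHom.realize_onFormula]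
  exact Iff.rfl

theorem realize_UF (t : LPA.Term α) (w : α → M) :
    (UF t).Realize (toE X w) ↔ t.realize w ∈ X := by
  unfold UF
  rw [Formula.realize_rel₁, LHom.realize_onTerm]
  exact Iff.rfl

end realize

section arith

variable {α : Type*} {M : Type*} [CommSemiring M] [LinearOrder M] [LPA.Structure M] [Arith M]
    (X : Set M)

theorem realize_thetaF (t : LPA.Term α) (w : α → M) :
    (thetaF t).Realize (toE X w) ↔ theta X (t.realize w) := by
  unfold thetaF theta
  rw [Formula.realize_iExs]
  constructor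
  · rintro ⟨y, hy⟩
    rw [Formula.realize_iAlls] at hy
    refine ⟨y 0, fun j hj hX => ?_⟩
    have h1 := hy (fun _ => j)
    rw [Formula.realize_imp, Formula.realize_not] at h1
    have h2 := (realize_UF X (addT (v (Sum.inl (Sum.inr 0))) (v (Sum.inr 0)) :
      LPA.Term ((α ⊕ Fin 1) ⊕ Fin 1)) (Sum.elim (Sum.elim w y) (fun _ => j))).2 (by
        rw [realize_addT, Arith.add_eq]
        exact hX)
    refine h1 ?_ h2
    refine (realize_liftF X _ (Sum.elim (Sum.elim w y) (fun _ => j))).2 ?_
    rw [realize_ltF, Arith.lt_iff, Term.realize_relabel]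
    exact hj
  · rintro ⟨y, hy⟩
    refine ⟨fun _ => y, ?_⟩
    rw [Formula.realize_iAlls]
    intro j
    rw [Formula.realize_imp, Formula.realize_not]
    intro h1 h2
    have h3 := (realize_liftF X _ (Sum.elim (Sum.elim w (fun _ => y)) j)).1 h1
    have h4 := (realize_UF X _ (Sum.elim (Sum.elim w (fun _ => y)) j)).1 h2
    rw [realize_ltF, Arith.lt_iff, Term.realize_relabel] at h3
    apply hy (j 0) h3
    rw [realize_addT, Arith.add_eq] at h4
    exact h4

theorem realize_RRF (s t : LPA.Term α) (w : α → M) :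
    (RRF s t).Realize (toE X w) ↔ RR X (s.realize w) (t.realize w) := by
  unfold RRF RR
  rw [Formula.realize_iExs]
  constructor
  · rintro ⟨y, hy⟩
    rw [Formula.realize_inf, Formula.realize_iAlls] at hy
    obtain ⟨h1, h2⟩ := hy
    refine ⟨y 0, (realize_thetaF X _ (Sum.elim w y)).1 h1, ?_⟩
    intro i hi
    have h3 := h2 (fun _ => i)
    rw [Formula.realize_imp] at h3
    have h4 := h3 ((realize_thetaF X _ (Sum.elim (Sum.elim w y) (fun _ => i))).2 hi)
    have h5 := (realize_UF X _ (Sum.elim (Sum.elim w y) (fun _ => i))).1 h4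
    rw [realize_codeT, Term.realize_relabel, Term.realize_relabel, realize_addT,
      Arith.add_eq] at h5
    exact h5
  · rintro ⟨y, h1, h2⟩
    refine ⟨fun _ => y, ?_⟩
    rw [Formula.realize_inf, Formula.realize_iAlls]
    refine ⟨(realize_thetaF X _ (Sum.elim w (fun _ => y))).2 h1, ?_⟩
    intro i
    rw [Formula.realize_imp]
    intro hi
    have hi' := (realize_thetaF X _ (Sum.elim (Sum.elim w (fun _ => y)) i)).1 hi
    refine (realize_UF X _ (Sum.elim (Sum.elim w (fun _ => y)) i)).2 ?_
    rw [realize_codeT, Term.realize_relabel, Term.realize_relabel, realize_addT, Arith.add_eq]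
    exact h2 (i 0) hi'

end arith

section ext

variable {M N : Type*} [LPA.Structure M] [LPA.Structure N] {X : Set M} {Y : Set N}
    (j : Expansion X ↪ₑ[LPAU] Expansion Y)
include j

theorem models_of_ext (h : M ⊨ PA) : N ⊨ PA := by
  rw [Theory.model_iff]
  intro ψ hψ
  have h1 : M ⊨ ψ := h.realize_of_mem ψ hψ
  have h2 : Expansion X ⊨ (LHom.sumInl : LPA →ᴸ LPAU).onSentence ψ := by
    rw [LHom.realize_onSentence]
    exact h1
  have h3 : Expansion Y ⊨ (LHom.sumInl : LPA →ᴸ LPAU).onSentence ψ := (j.map_sentence _).1 h2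
  rw [LHom.realize_onSentence] at h3
  exact h3

variable [CommSemiring M] [LinearOrder M] [Arith M] [CommSemiring N] [LinearOrder N] [Arith N]

theorem theta_ext (k : M) : theta Y (j k : N) ↔ theta X k := by
  have h1 := j.map_formula (thetaF (v (0 : Fin 1))) (fun _ => k)
  have h2 := realize_thetaF X (v (0 : Fin 1)) (fun _ => k)
  have h3 := realize_thetaF Y (v (0 : Fin 1)) (fun _ => (j k : N))
  exact (h3.symm.trans h1).trans h2

theorem RR_ext (n z : M) : RR Y (j n : N) (j z : N) ↔ RR X n z := by
  have h1 := j.map_formula (RRF (v (0 : Fin 2)) (v 1)) (![n, z] : Fin 2 → M)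
  have h2 := realize_RRF X (v (0 : Fin 2)) (v 1) (![n, z] : Fin 2 → M)
  have h3 := realize_RRF Y (v (0 : Fin 2)) (v 1) (![(j n : N), (j z : N)] : Fin 2 → N)
  have h4 : (j ∘ (![n, z] : Fin 2 → M) : Fin 2 → Expansion Y)
      = (![(j n : N), (j z : N)] : Fin 2 → N) := by
    funext i; fin_cases i <;> rfl
  rw [h4] at h1
  exact (h3.symm.trans h1).trans h2

/-- transfer of a universally quantified formula in `k` variables -/
theorem forall_ext {k : ℕ} (φ : LPAU.Formula (Fin k)) (h : ∀ w : Fin k → Expansion X, φ.Realize w)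
    (w : Fin k → Expansion Y) : φ.Realize w := by
  have h1 := j.map_formula (Formula.iAlls (Fin k)
    (φ.relabel (Sum.inr : Fin k → Empty ⊕ Fin k))) (fun e => e.elim)
  rw [Formula.realize_iAlls, Formula.realize_iAlls] at h1
  have h2 := h1.2 (fun w' => by
    rw [Formula.realize_relabel]
    exact h _) w
  rw [Formula.realize_relabel] at h2
  exact h2

end ext

end Pool.Agent.W_MP_486437_lc
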